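import Pool.Agent.Lib_helper57.QI.E0

/-!
# Module EQ : `lemQ`, no E-state is reachable from a vertical state
-/

set_option autoImplicit false

namespace H57.QI

variable {H : Type} [Group H]

theorem Q_exists_delta {ι : Type*} (s : Finset ι) (f : ι → ℝ) :
    ∃ δ : ℝ, 0 < δ ∧ ∀ i ∈ s, 0 < f i → δ ≤ f i := by
  classical
  by_cases h : (s.filter fun i => 0 < f i).Nonempty
  · obtain ⟨i, hi, hm⟩ := Finset.exists_min_image _ f h
    exact ⟨f i, (Finset.mem_filter.1 hi).2, fun j hj hfj => hm j (Finset.mem_filter.2 ⟨hj, hfj⟩)⟩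
  · exact ⟨1, one_pos, fun i hi hfi => absurd ⟨i, Finset.mem_filter.2 ⟨hi, hfi⟩⟩ h⟩

theorem Q_take_seg {S : Type} (W : List S) {t t' : ℕ} (h : t ≤ t') :
    W.take t' = W.take t ++ (W.take t').drop t := by
  conv_lhs => rw [← List.take_append_drop t (W.take t')]
  rw [List.take_take, min_eq_left h]

theorem Q_length_seg {S : Type} (W : List S) {t t' : ℕ} (h' : t' ≤ W.length) :
    ((W.take t').drop t).length = t' - t := by
  rw [List.length_drop, List.length_take, min_eq_left h']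

/-- a finite set of natural numbers with bounded fibres of bounded diameter -/
theorem Q_count (S : Finset ℕ) (n K : ℕ) (f : ℕ → ℕ × ℕ)
    (hf : ∀ t ∈ S, (f t).1 ≤ n ∧ (f t).2 ≤ n)
    (hK : ∀ t ∈ S, ∀ t' ∈ S, t ≤ t' → f t' = f t → t' - t ≤ K) :
    S.card ≤ (K + 1) * ((n + 1) * (n + 1)) := by
  classical
  have h1 : S.card ≤ (K + 1) * (S.image f).card := by
    apply Finset.card_le_mul_card_image
    intro a ha
    rcases (S.filter fun x => f x = a).eq_empty_or_nonempty with he | hne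
    · rw [he]; simp
    · obtain ⟨t0, ht0, hmin⟩ := Finset.exists_min_image _ (fun x => x) hne
      have hsub : (S.filter fun x => f x = a) ⊆ Finset.Icc t0 (t0 + K) := by
        intro t ht
        have h2 := hmin t ht
        rw [Finset.mem_filter] at ht ht0
        have h3 := hK t0 ht0.1 t ht.1 h2 (by rw [ht.2, ht0.2])
        rw [Finset.mem_Icc]
        omega
      calc (S.filter fun x => f x = a).card ≤ (Finset.Icc t0 (t0 + K)).card :=
            Finset.card_le_card hsub
        _ = K + 1 := by rw [Nat.card_Icc]; omega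
  have h2 : (S.image f).card ≤ (n + 1) * (n + 1) := by
    have hsub : S.image f ⊆ Finset.range (n + 1) ×ˢ Finset.range (n + 1) := by
      intro a ha
      obtain ⟨t, ht, rfl⟩ := Finset.mem_image.1 ha
      have := hf t ht
      rw [Finset.mem_product, Finset.mem_range, Finset.mem_range]
      omega
    calc (S.image f).card ≤ (Finset.range (n + 1) ×ˢ Finset.range (n + 1)).card :=
          Finset.card_le_card hsub
      _ = (n + 1) * (n + 1) := by rw [Finset.card_product, Finset.card_range]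
  exact h1.trans (Nat.mul_le_mul_left _ h2)

namespace Auto

variable {D : Geo H} (A : Auto D)

open Classical in
/-- times at which the path has E-velocity `c` -/
noncomputable def QT (psi : A.Q → ℂ) (c : ℂ) (W : List A.S) : Finset ℕ :=
  (Finset.range W.length).filter fun t => A.EE (A.st A.q0 (W.take t)) ∧
    D.al ^ (D.e (A.val (W.take t))) * psi (A.st A.q0 (W.take t)) = c

theorem mem_QT (psi : A.Q → ℂ) (c : ℂ) (W : List A.S) (t : ℕ) :
    t ∈ A.QT psi c W ↔ t < W.length ∧ A.EE (A.st A.q0 (W.take t)) ∧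
      D.al ^ (D.e (A.val (W.take t))) * psi (A.st A.q0 (W.take t)) = c := by
  classical
  unfold QT
  rw [Finset.mem_filter, Finset.mem_range]

/-- the properties of the velocities given by `LemE` -/
def QE (R : ℝ) (psi : A.Q → ℂ) : Prop := ∀ p, A.EE p → psi p ≠ 0 ∧ ¬ A.Vert p ∧
  (∀ V, A.sc p (A.st p V) → (D.L (A.val V) : ℝ) ≤ R ∧ ‖D.x (A.val V) - V.length * psi p‖ ≤ R) ∧
  (∀ V, A.sc p (A.st p V) → psi p = D.al ^ (D.e (A.val V)) * psi (A.st p V))

theorem Q_aux (hV : A.LemV) (hF : A.LemF) {R : ℝ} {psi : A.Q → ℂ} (hR : 0 ≤ R)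
    (hE : A.QE R psi) (κ : ℝ) (hκ : 0 ≤ κ) : ∃ K : ℕ, ∀ (c : ℂ) (W W' : List A.S) (t t' : ℕ),
      W ∈ A.M.accepts → W' ∈ A.M.accepts → D.N ((A.val W)⁻¹ * A.val W') ≤ κ → t ≤ t' →
      t ∈ A.QT psi c W → t ∉ A.QT psi c W' → t' < W.length → t' < W'.length →
      A.rk (A.st A.q0 (W.take t')) = A.rk (A.st A.q0 (W.take t)) →
      A.rk (A.st A.q0 (W'.take t')) = A.rk (A.st A.q0 (W'.take t)) → t' - t ≤ K := by
  obtain ⟨CV, hCV, hV⟩ := hV
  obtain ⟨CF, hCF, hF⟩ := hF
  set k' : ℝ := A.k * (κ + 1) with hk'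
  have hk0 : 0 ≤ k' := by
    have := A.one_le_k
    positivity
  -- the minimal difference of velocities
  obtain ⟨δ, hδ, hδ'⟩ := Q_exists_delta
    ((Finset.univ : Finset A.Q) ×ˢ ((Finset.univ : Finset A.Q) ×ˢ Finset.Icc (-(⌈k'⌉)) ⌈k'⌉))
    (fun i => ‖D.al ^ i.2.2 * psi i.2.1 - psi i.1‖)
  set B : ℝ := CV * (1 + (R + 2 * k')) + CF * (1 + (R + 2 * k')) + (2 * R + 2 * k') / δ with hB
  have hB1 : 0 ≤ CV * (1 + (R + 2 * k')) := by positivity
  have hB2 : 0 ≤ CF * (1 + (R + 2 * k')) := by positivity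
  have hB3 : 0 ≤ (2 * R + 2 * k') / δ := by positivity
  refine ⟨⌈B⌉₊, fun c W W' t t' hW hW' hN htt ht ht' htW htW' hrk hrk' => ?_⟩
  suffices hmain : ((t' - t : ℕ) : ℝ) ≤ B by
    exact_mod_cast hmain.trans (Nat.le_ceil B)
  -- notation
  set s := A.st A.q0 (W.take t) with hs
  set s' := A.st A.q0 (W'.take t) with hs'
  set V := (W.take t').drop t with hVdef
  set V' := (W'.take t').drop t with hV'def
  have e1 : W.take t' = W.take t ++ V := Q_take_seg W htt
  have e2 : W'.take t' = W'.take t ++ V' := Q_take_seg W' htt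
  have l1 : V.length = t' - t := Q_length_seg W htW.le
  have l2 : V'.length = t' - t := Q_length_seg W' htW'.le
  have st1 : A.st A.q0 (W.take t') = A.st s V := by rw [e1, A.st_append]
  have st2 : A.st A.q0 (W'.take t') = A.st s' V' := by rw [e2, A.st_append]
  have sc1 : A.sc s (A.st s V) := A.sc_of_rk_eq (by rw [← st1]; exact hrk)
  have sc2 : A.sc s' (A.st s' V') := A.sc_of_rk_eq (by rw [← st2]; exact hrk')
  obtain ⟨-, hEs, hc⟩ := (A.mem_QT psi c W t).1 ht
  obtain ⟨hps, -, hE1, -⟩ := hE s hEs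
  obtain ⟨hL, hx⟩ := hE1 V sc1
  -- the fellow traveller property
  set g := (A.val (W.take t))⁻¹ * A.val (W'.take t) with hg
  set g' := (A.val (W.take t'))⁻¹ * A.val (W'.take t') with hg'
  have hk1 : A.k * (D.N ((A.val W)⁻¹ * A.val W') + 1) ≤ k' := by
    have := A.one_le_k
    exact mul_le_mul_of_nonneg_left (by linarith) (by linarith)
  have hgN : D.N g ≤ k' := (A.ft' hW hW' t).trans hk1
  have hgN' : D.N g' ≤ k' := (A.ft' hW hW' t').trans hk1
  have hgL : (D.L g : ℝ) ≤ k' := (D.L_le_N g).trans hgN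
  have hgL' : (D.L g' : ℝ) ≤ k' := (D.L_le_N g').trans hgN'
  have heq : g * A.val V' = A.val V * g' := by
    rw [hg, hg', e1, e2, A.val_append, A.val_append]
    group
  have hVV' : A.val V' = g⁻¹ * (A.val V * g') := by rw [← heq]; group
  have hLV' : (D.L (A.val V') : ℝ) ≤ R + 2 * k' := by
    have h1 : D.L (A.val V') ≤ D.L g⁻¹ + (D.L (A.val V) + D.L g') := by
      rw [hVV']
      exact (D.L_mul _ _).trans (Nat.add_le_add_left (D.L_mul _ _) _)
    rw [D.L_inv] at h1
    have h2 : (D.L (A.val V') : ℝ) ≤ D.L g + (D.L (A.val V) + D.L g') := by exact_mod_cast h1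
    linarith
  have hlive : A.live s' := A.live_of_mem hW' t
  by_cases hv : A.Vert s'
  · have := hV s' V' hv sc2
    rw [l2] at this
    have h3 : CV * (1 + (D.L (A.val V') : ℝ)) ≤ CV * (1 + (R + 2 * k')) :=
      mul_le_mul_of_nonneg_left (by linarith) hCV
    linarith
  by_cases hee : A.EE s'
  · obtain ⟨hps', -, hE1', -⟩ := hE s' hee
    obtain ⟨-, hx'⟩ := hE1' V' sc2
    rw [l1] at hx
    rw [l2] at hx'
    have hne : D.al ^ (D.e g) * psi s' - psi s ≠ 0 := by
      intro h0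
      apply ht'
      rw [A.mem_QT]
      refine ⟨lt_of_le_of_lt htt htW', hee, ?_⟩
      rw [← hs', ← hc, ← hs]
      have h4 : D.e (A.val (W'.take t)) = D.e (A.val (W.take t)) + D.e g := by
        rw [hg, D.e_mul, D.e_inv]; ring
      rw [h4, zpow_add₀ D.al_ne_zero, mul_assoc, sub_eq_zero.1 h0]
    have hδ2 : δ ≤ ‖D.al ^ (D.e g) * psi s' - psi s‖ := by
      apply hδ' (s, s', D.e g)
      · rw [Finset.mem_product, Finset.mem_product, Finset.mem_Icc]
        refine ⟨Finset.mem_univ _, Finset.mem_univ _, ?_⟩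
        have h5 : |D.e g| ≤ ⌈k'⌉ := by
          have h6 : ((|D.e g| : ℤ) : ℝ) ≤ k' := by
            have h7 : ((|D.e g| : ℤ) : ℝ) ≤ D.L g := by exact_mod_cast D.e_le g
            linarith
          exact_mod_cast h6.trans (Int.le_ceil k')
        exact abs_le.1 h5
      · exact norm_pos_iff.2 hne
    have hxg : D.al ^ (D.e g) * D.x (A.val V') - D.x (A.val V) =
        D.al ^ (D.e (A.val V)) * D.x g' - D.x g := by
      have h8 : D.x (g * A.val V') = D.x (A.val V * g') := congrArg D.x heq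
      rw [D.x_mul g, D.x_mul (A.val V)] at h8
      linear_combination h8
    have hxg' : ‖D.al ^ (D.e g) * D.x (A.val V') - D.x (A.val V)‖ ≤ 2 * k' := by
      rw [hxg]
      calc ‖D.al ^ (D.e (A.val V)) * D.x g' - D.x g‖
          ≤ ‖D.al ^ (D.e (A.val V)) * D.x g'‖ + ‖D.x g‖ := norm_sub_le _ _
        _ = ‖D.x g'‖ + ‖D.x g‖ := by rw [norm_mul, D.norm_al_zpow, one_mul]
        _ ≤ k' + k' := add_le_add ((D.norm_x_le_N g').trans hgN') ((D.norm_x_le_N g).trans hgN)
        _ = 2 * k' := by ring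
    have hfin : ((t' - t : ℕ) : ℝ) * δ ≤ 2 * R + 2 * k' := by
      calc ((t' - t : ℕ) : ℝ) * δ
          ≤ ((t' - t : ℕ) : ℝ) * ‖D.al ^ (D.e g) * psi s' - psi s‖ :=
            mul_le_mul_of_nonneg_left hδ2 (Nat.cast_nonneg _)
        _ = ‖((t' - t : ℕ) : ℂ) * (D.al ^ (D.e g) * psi s' - psi s)‖ := by
            rw [norm_mul, Complex.norm_natCast]
        _ = ‖D.al ^ (D.e g) * (-(D.x (A.val V') - ((t' - t : ℕ) : ℂ) * psi s')) +
              (D.al ^ (D.e g) * D.x (A.val V') - D.x (A.val V)) +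
              (D.x (A.val V) - ((t' - t : ℕ) : ℂ) * psi s)‖ := by
            congr 1; ring
        _ ≤ ‖D.al ^ (D.e g) * (-(D.x (A.val V') - ((t' - t : ℕ) : ℂ) * psi s'))‖ +
              ‖D.al ^ (D.e g) * D.x (A.val V') - D.x (A.val V)‖ +
              ‖D.x (A.val V) - ((t' - t : ℕ) : ℂ) * psi s‖ := norm_add₃_le
        _ ≤ R + 2 * k' + R := by
            rw [norm_mul, D.norm_al_zpow, one_mul, norm_neg]
            exact add_le_add (add_le_add hx' hxg') hx
        _ = 2 * R + 2 * k' := by ring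
    have := (le_div_iff₀ hδ).2 hfin
    linarith
  · have := hF s' V' hlive hv hee sc2
    rw [l2] at this
    have h3 : CF * (1 + (D.L (A.val V') : ℝ)) ≤ CF * (1 + (R + 2 * k')) :=
      mul_le_mul_of_nonneg_left (by linarith) hCF
    linarith

/-- persistence of velocities along fellow travelling words -/
theorem Q_persist (hV : A.LemV) (hF : A.LemF) {R : ℝ} {psi : A.Q → ℂ} (hR : 0 ≤ R)
    (hE : A.QE R psi) (κ : ℝ) (hκ : 0 ≤ κ) : ∃ K : ℕ, ∀ (c : ℂ) (W W' : List A.S),
      W ∈ A.M.accepts → W' ∈ A.M.accepts → D.N ((A.val W)⁻¹ * A.val W') ≤ κ →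
      (A.QT psi c W \ A.QT psi c W').card ≤ K := by
  classical
  obtain ⟨K, hK⟩ := A.Q_aux hV hF hR hE κ hκ
  set n := Fintype.card A.Q
  refine ⟨(K + 1) * ((n + 1) * (n + 1)) + ⌈A.k * (κ + 1)⌉₊, fun c W W' hW hW' hN => ?_⟩
  set S1 := (A.QT psi c W \ A.QT psi c W').filter fun t => t < W'.length with hS1
  have hsub : A.QT psi c W \ A.QT psi c W' ⊆ S1 ∪ Finset.Ico W'.length W.length := by
    intro t ht
    rw [Finset.mem_union]
    by_cases h : t < W'.length
    · exact Or.inl (Finset.mem_filter.2 ⟨ht, h⟩)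
    · right
      rw [Finset.mem_Ico]
      exact ⟨not_lt.1 h, ((A.mem_QT psi c W t).1 (Finset.mem_sdiff.1 ht).1).1⟩
  have h1 : S1.card ≤ (K + 1) * ((n + 1) * (n + 1)) := by
    apply Q_count S1 n K
      (fun t => (A.rk (A.st A.q0 (W.take t)), A.rk (A.st A.q0 (W'.take t))))
    · intro t _
      exact ⟨A.rk_le_card _, A.rk_le_card _⟩
    · intro t ht t' ht' htt hf
      rw [hS1, Finset.mem_filter, Finset.mem_sdiff] at ht ht'
      simp only [Prod.mk.injEq] at hf
      exact hK c W W' t t' hW hW' hN htt ht.1.1 ht.1.2 ((A.mem_QT psi c W t').1 ht'.1.1).1 ht'.2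
        hf.1 hf.2
  have h2 : (Finset.Ico W'.length W.length).card ≤ ⌈A.k * (κ + 1)⌉₊ := by
    rw [Nat.card_Ico]
    have h3 := A.ll' hW hW'
    have hk1 : A.k * (D.N ((A.val W)⁻¹ * A.val W') + 1) ≤ A.k * (κ + 1) := by
      have := A.one_le_k
      exact mul_le_mul_of_nonneg_left (by linarith) (by linarith)
    have h4 : (W.length : ℝ) - W'.length ≤ A.k * (κ + 1) := (le_abs_self _).trans (h3.trans hk1)
    have h5 : (W.length : ℝ) ≤ W'.length + (⌈A.k * (κ + 1)⌉₊ : ℝ) := by
      have := Nat.le_ceil (A.k * (κ + 1))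
      linarith
    have h6 : W.length ≤ W'.length + ⌈A.k * (κ + 1)⌉₊ := by exact_mod_cast h5
    omega
  calc (A.QT psi c W \ A.QT psi c W').card ≤ (S1 ∪ Finset.Ico W'.length W.length).card :=
        Finset.card_le_card hsub
    _ ≤ S1.card + (Finset.Ico W'.length W.length).card := Finset.card_union_le _ _
    _ ≤ _ := add_le_add h1 h2

/-- persistence along a chain of accepted words -/
theorem Q_chain (psi : A.Q → ℂ) (κ : ℝ) (K : ℕ) (hK : ∀ (c : ℂ) (W W' : List A.S),
      W ∈ A.M.accepts → W' ∈ A.M.accepts → D.N ((A.val W)⁻¹ * A.val W') ≤ κ →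
      (A.QT psi c W \ A.QT psi c W').card ≤ K) (c : ℂ) (f : ℕ → H) (F : ℕ → List A.S)
      (hF : ∀ i, F i ∈ A.M.accepts ∧ A.val (F i) = f i) (n : ℕ)
      (hf : ∀ i < n, D.N ((f i)⁻¹ * f (i + 1)) ≤ κ) :
      (A.QT psi c (F 0) \ A.QT psi c (F n)).card ≤ n * K := by
  classical
  induction n with
  | zero => simp
  | succ n ih =>
    have h1 := ih fun i hi => hf i (by omega)
    have h2 := hK c (F n) (F (n + 1)) (hF n).1 (hF (n + 1)).1
      (by rw [(hF n).2, (hF (n + 1)).2]; exact hf n (by omega))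
    have hsub : A.QT psi c (F 0) \ A.QT psi c (F (n + 1)) ⊆
        (A.QT psi c (F 0) \ A.QT psi c (F n)) ∪ (A.QT psi c (F n) \ A.QT psi c (F (n + 1))) := by
      intro t ht
      rw [Finset.mem_union, Finset.mem_sdiff, Finset.mem_sdiff]
      rw [Finset.mem_sdiff] at ht
      by_cases h : t ∈ A.QT psi c (F n)
      · exact Or.inr ⟨h, ht.2⟩
      · exact Or.inl ⟨ht.1, h⟩
    calc _ ≤ _ := Finset.card_le_card hsub
      _ ≤ _ := Finset.card_union_le _ _
      _ ≤ n * K + K := add_le_add h1 h2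
      _ = (n + 1) * K := by ring

/-- along `P y ^ n ζ`, with `y` a loop at the E-state `q`, the velocity is constant -/
theorem Q_vel {R : ℝ} {psi : A.Q → ℂ} (hE : A.QE R psi) {q : A.Q} (hq : A.EE q) {y : List A.S}
    (hqy : A.st q y = q) (P ζ : List A.S) (hP : A.st A.q0 P = q) (n t : ℕ)
    (h1 : P.length ≤ t) (h2 : t ≤ P.length + n * y.length) :
    A.EE (A.st A.q0 ((P ++ (rep y n ++ ζ)).take t)) ∧
    D.al ^ (D.e (A.val ((P ++ (rep y n ++ ζ)).take t))) *
      psi (A.st A.q0 ((P ++ (rep y n ++ ζ)).take t)) = D.al ^ (D.e (A.val P)) * psi q := by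
  have hr : t - P.length ≤ (rep y n).length := by rw [length_rep]; omega
  have e1 : (P ++ (rep y n ++ ζ)).take t = P ++ (rep y n).take (t - P.length) := by
    rw [List.take_append, List.take_of_length_le h1, List.take_append_of_le_length hr]
  rw [e1]
  set V := (rep y n).take (t - P.length) with hV
  have hsc : A.sc q (A.st q V) :=
    A.sc_take (V := rep y n) (by rw [A.st_rep hqy]; exact A.sc_refl q) _
  rw [A.st_append, hP]
  refine ⟨A.EE_sc hq hsc, ?_⟩
  have h3 := (hE q hq).2.2.2 V hsc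
  rw [A.val_append, D.e_mul, zpow_add₀ D.al_ne_zero, mul_assoc, ← h3]

/-- Lemma Q : no E-state is reachable from a vertical state -/
theorem lemQ (hV : A.LemV) (hE : A.LemE) (hF : A.LemF) : A.LemQ := by
  classical
  intro p X0 hp hco hEE
  obtain ⟨R, psi, hR, hE⟩ := hE
  change A.QE R psi at hE
  obtain ⟨⟨⟨u, hu⟩, -⟩, z, hz, hez⟩ := hp
  obtain ⟨-, q, y, hsc, hy, hqy, hyL⟩ := id hEE
  obtain ⟨V0, hV0⟩ := hsc.1
  have hEEq : A.EE q := A.EE_sc hEE hsc
  obtain ⟨ζ, hζ⟩ := hEEq.1.2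
  set X := X0 ++ V0 with hXdef
  have hX : A.st p X = q := by rw [hXdef, A.st_append, hV0]
  obtain ⟨κ, hκ, hchain⟩ := D.chain
  obtain ⟨K, hK⟩ := A.Q_persist hV hF hR hE κ hκ.le
  set a : ℝ := ‖D.x (A.val y)‖ with ha
  have ha0 : 0 ≤ a := norm_nonneg _
  set φ : ℝ := 1 / (2 * (K * κ * a + 1)) with hφ
  have hKκa : 0 ≤ K * κ * a := by positivity
  have hφ0 : 0 < φ := by rw [hφ]; positivity
  obtain ⟨g, hg, hgφ⟩ := D.al_close (D.e (A.val z)) φ hφ0
  set B := (A.val X)⁻¹ * (A.val z) ^ g * A.val X with hB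
  set C : ℝ := 2 * D.N (A.val ζ) + D.N B with hC
  have hC0 : 0 ≤ C := by
    have := D.N_nonneg (A.val ζ)
    have := D.N_nonneg B
    linarith
  have heB : D.e B = g * D.e (A.val z) := by
    rw [hB, D.e_mul, D.e_mul, D.e_inv, D.e_pow]; ring
  -- the words
  set P : ℕ → List A.S := fun j => u ++ (rep z j ++ X) with hPdef
  have hPst : ∀ j, A.st A.q0 (P j) = q := by
    intro j
    simp only [hPdef]
    rw [A.st_append, hu, A.st_append, A.st_rep hz, hX]
  have hPlen : ∀ j, (P j).length = u.length + (j * z.length + X.length) := by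
    intro j
    simp only [hPdef, List.length_append, length_rep]
  have hPe : ∀ j : ℕ, D.e (A.val (P j)) = D.e (A.val u) + (j * D.e (A.val z) + D.e (A.val X)) := by
    intro j
    simp only [hPdef]
    rw [A.val_append, A.val_append, A.val_rep, D.e_mul, D.e_mul, D.e_pow]
  set W : ℕ → ℕ → List A.S := fun j n => P j ++ (rep y n ++ ζ) with hWdef
  have hWacc : ∀ j n, W j n ∈ A.M.accepts := by
    intro j n
    rw [A.mem_accepts]
    simp only [hWdef]
    rw [A.st_append, hPst, A.st_append, A.st_rep hqy]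
    exact hζ
  -- the distance of the two words
  have hdist : ∀ n : ℕ, D.N ((A.val (W 0 n))⁻¹ * A.val (W g n)) ≤ C + φ * (n * a) := by
    intro n
    have e1 : (A.val (W 0 n))⁻¹ * A.val (W g n) =
        (A.val ζ)⁻¹ * ((A.val y ^ n)⁻¹ * B * A.val y ^ n) * A.val ζ := by
      simp only [hWdef, hPdef, A.val_append, A.val_rep, hB]
      group
    rw [e1]
    have hYn : D.L (A.val y ^ n) = 0 := D.L0_pow hyL n
    have e2 : D.N ((A.val y ^ n)⁻¹ * B * A.val y ^ n) ≤ D.N B + φ * (n * a) := by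
      unfold Geo.N
      rw [D.L_mul_P hYn, D.L_P_mul (D.L0_inv hYn)]
      have e3 : ‖D.x ((A.val y ^ n)⁻¹ * B * A.val y ^ n)‖ ≤ ‖D.x B‖ + φ * (n * a) := by
        rw [D.x_conj, norm_mul, D.norm_al_zpow, one_mul, D.x_P_pow hyL, heB]
        refine (norm_add_le _ _).trans (add_le_add le_rfl ?_)
        rw [norm_mul, norm_mul, Complex.norm_natCast]
        exact mul_le_mul hgφ le_rfl (by positivity) hφ0.le
      linarith
    have e4 := D.N_mul ((A.val ζ)⁻¹ * ((A.val y ^ n)⁻¹ * B * A.val y ^ n)) (A.val ζ)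
    have e5 := D.N_mul (A.val ζ)⁻¹ ((A.val y ^ n)⁻¹ * B * A.val y ^ n)
    rw [D.N_inv] at e5
    linarith
  -- counting
  have hcount : ∀ n : ℕ, (n : ℝ) ≤ g * z.length + K * (κ * (C + φ * (n * a) + 1)) := by
    intro n
    obtain ⟨m, f, hf0, hfm, hm, hstep⟩ := hchain (A.val (W 0 n)) (A.val (W g n))
    choose F hFacc hFval using fun i => A.exists_word (f i)
    have hF0 : F 0 = W 0 n :=
      A.uniq _ _ (hFacc 0) (hWacc 0 n) ((hFval 0).trans hf0)
    have hFm : F m = W g n :=
      A.uniq _ _ (hFacc m) (hWacc g n) ((hFval m).trans hfm)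
    have h1 := A.Q_chain psi κ K hK (D.al ^ (D.e (A.val (P 0))) * psi q) f F
      (fun i => ⟨hFacc i, hFval i⟩) m hstep
    rw [hF0, hFm] at h1
    have hsub : Finset.Ico (P g).length ((P 0).length + n * y.length) ⊆
        A.QT psi (D.al ^ (D.e (A.val (P 0))) * psi q) (W 0 n) \
          A.QT psi (D.al ^ (D.e (A.val (P 0))) * psi q) (W g n) := by
      intro t ht
      rw [Finset.mem_Ico] at ht
      have hP0g : (P 0).length ≤ (P g).length := by
        rw [hPlen, hPlen]
        have : 0 * z.length ≤ g * z.length := Nat.mul_le_mul_right _ (Nat.zero_le _)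
        omega
      have hW0 := A.Q_vel hE hEEq hqy (P 0) ζ (hPst 0) n t (hP0g.trans ht.1) ht.2.le
      have hWg := A.Q_vel hE hEEq hqy (P g) ζ (hPst g) n t ht.1
        (ht.2.le.trans (Nat.add_le_add_right hP0g _))
      rw [Finset.mem_sdiff, A.mem_QT, A.mem_QT]
      refine ⟨⟨?_, hW0⟩, ?_⟩
      · simp only [hWdef, List.length_append, length_rep]
        omega
      · rintro ⟨-, -, h3⟩
        have h4 := hWg.2.symm.trans h3
        have h5 := D.al_zpow_inj (mul_right_cancel₀ (hE q hEEq).1 h4)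
        rw [hPe, hPe] at h5
        have h6 : (g : ℤ) * D.e (A.val z) = 0 := by
          push_cast at h5
          linarith
        rcases mul_eq_zero.1 h6 with h7 | h7
        · omega
        · exact hez h7
    have h2 := (Finset.card_le_card hsub).trans h1
    rw [Nat.card_Ico, hPlen, hPlen] at h2
    have hy1 : 1 ≤ y.length := List.length_pos_iff.2 hy
    have h3 : n ≤ n * y.length := Nat.le_mul_of_pos_right n hy1
    have h4 : n ≤ g * z.length + m * K := by
      have : 0 * z.length = 0 := Nat.zero_mul _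
      omega
    have h5 : (n : ℝ) ≤ g * z.length + m * K := by exact_mod_cast h4
    have h6 : (m : ℝ) ≤ κ * (C + φ * (n * a) + 1) :=
      hm.trans (mul_le_mul_of_nonneg_left (by linarith [hdist n]) hκ.le)
    have h7 : (m : ℝ) * K ≤ K * (κ * (C + φ * (n * a) + 1)) := by
      rw [mul_comm]
      exact mul_le_mul_of_nonneg_left h6 (Nat.cast_nonneg _)
    linarith
  -- contradiction
  have hφa : K * κ * a * φ ≤ 1 / 2 := by
    rw [hφ, mul_one_div, div_le_div_iff₀ (by positivity) (by norm_num)]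
    linarith
  obtain ⟨n, hn⟩ := exists_nat_gt (2 * (g * z.length + K * κ * (C + 1)))
  have h8 := hcount n
  have h9 : K * κ * a * φ * n ≤ 1 / 2 * n := mul_le_mul_of_nonneg_right hφa (Nat.cast_nonneg _)
  have h10 : K * (κ * (C + φ * (n * a) + 1)) = K * κ * (C + 1) + K * κ * a * φ * n := by ring
  rw [h10] at h8
  linarith

end Auto

end H57.QI
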